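import Pool.Agent.Helper65.KH.Goals

/-! # KH: counting monomials (LC) -/

set_option autoImplicit false

open MvPolynomial

namespace Pool.Agent.Helper10.KH.LC

open Pool.Agent.Helper65.KH

theorem mon_eq {ι : Type} [Fintype ι] (p : ι → ℕ) :
    mon p = monomial (Finsupp.equivFunOnFinite.symm p) (1 : ℚ) := by
  unfold mon
  rw [MvPolynomial.monomial_eq, C_1, one_mul, Finsupp.prod_fintype]
  · rfl
  · intro i; exact pow_zero _

theorem mm_supp {ι : Type} [Fintype ι] [DecidableEq ι] {M : ℕ} {g : MvPolynomial ι ℚ}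
    (hg : g ∈ mm ι M) : ∀ q ∈ g.support, M ≤ ∑ i, q i := by
  unfold mm at hg
  induction hg using Submodule.span_induction with
  | mem x hx =>
    obtain ⟨p, hp, rfl⟩ := hx
    intro q hq
    rw [mon_eq, mem_support_iff, coeff_monomial] at hq
    split_ifs at hq with h
    · rw [← h]; exact hp
    · exact absurd rfl hq
  | zero => intro q hq; simp at hq
  | add x y _ _ hx hy =>
    intro q hq
    rcases Finset.mem_union.1 (support_add hq) with h | h
    exacts [hx q h, hy q h]
  | smul a x _ hx =>
    intro q hq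
    rw [smul_eq_mul] at hq
    obtain ⟨q1, h1, q2, h2, rfl⟩ := Finset.mem_add.1 (support_mul _ _ hq)
    have h3 := hx q2 h2
    simp only [Finsupp.add_apply, Finset.sum_add_distrib]
    omega

theorem t (hFD : S_FD) : S_LC := by
  intro ι _ _ Q U M F hQ hF
  have := hFD ι Q M
  have hli : LinearIndependent ℚ
      (fun p : F => Ideal.Quotient.mkₐ ℚ (Q ⊔ mm ι M) (mon (p : ι → ℕ))) := by
    rw [Fintype.linearIndependent_iff]
    intro c hc p
    have h1 : ∑ p : F, c p • mon (p : ι → ℕ) ∈ Q ⊔ mm ι M := by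
      rw [← Ideal.Quotient.eq_zero_iff_mem, ← Ideal.Quotient.mkₐ_eq_mk ℚ, map_sum]
      simp only [map_smul]
      exact hc
    obtain ⟨f, hf, g, hg, hfg⟩ := Submodule.mem_sup.1 h1
    obtain ⟨hpU, hpM⟩ := hF p.1 p.2
    have h2 : coeff (Finsupp.equivFunOnFinite.symm (p : ι → ℕ)) f = 0 := by
      by_contra h
      exact hpU (hQ f hf _ (mem_support_iff.2 h))
    have h3 : coeff (Finsupp.equivFunOnFinite.symm (p : ι → ℕ)) g = 0 := by
      by_contra h
      have h4 := mm_supp hg _ (mem_support_iff.2 h)
      exact absurd h4 (not_le.2 hpM)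
    have h5 := congrArg (coeff (Finsupp.equivFunOnFinite.symm (p : ι → ℕ))) hfg
    rw [coeff_add, h2, h3, coeff_sum, add_zero] at h5
    have h6 : ∀ q : F, coeff (Finsupp.equivFunOnFinite.symm (p : ι → ℕ)) (c q • mon (q : ι → ℕ)) =
        if q = p then c q else 0 := by
      intro q
      rw [mon_eq, coeff_smul, coeff_monomial]
      by_cases h : q = p
      · rw [if_pos (by rw [h]), if_pos h, smul_eq_mul, mul_one]
      · rw [if_neg, if_neg h, smul_zero]
        intro h'
        exact h (Subtype.ext (Finsupp.equivFunOnFinite.symm.injective h'))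
    rw [Finset.sum_congr rfl fun q _ => h6 q, Finset.sum_ite_eq' Finset.univ p c,
      if_pos (Finset.mem_univ _)] at h5
    exact h5.symm
  have h7 := hli.fintype_card_le_finrank
  rw [Fintype.card_coe] at h7
  exact h7

end Pool.Agent.Helper10.KH.LC
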